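import Pool.Agent.Q287.RF.Final

set_option autoImplicit false

/-!
# The total hub mass of the random friend tree is one

Definitions (`Pool.Agent.Q287.RF.Defs`): `Q287.RF.tree w n` is the tree `T_n` on `{1, …, n}` in
which `m + 1` is joined to `w m` for `1 ≤ m < n`; `Q287.RF.degree w n v` is the degree of `v` in
it; `Q287.RF.IsRandomFriendTree P V W` says that `(V n, W n)` are the choices of the random friend
tree. `Q287.RF.Z w v = liminf_n degree w n v / n` (`Pool.Agent.Q287.RF.Final`).
-/

namespace Pool.Agent.Results.MP_29c4b2_pr.TotalHubMass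

open MeasureTheory Filter Topology Q287.RF

/-- **Theorem.** In the random friend tree, almost surely `∑_{i ≥ 1} Z_i = 1`; moreover almost
surely `D_n(v) / n` converges (to `Z_v`) for every vertex `v`. -/
theorem result {Ω : Type*} [MeasurableSpace Ω] (P : Measure Ω) (V W : ℕ → Ω → ℕ)
    (hT : IsRandomFriendTree P V W) :
    (∀ᵐ ω ∂P, HasSum (fun i : ℕ => Z (fun m => W m ω) (i + 1)) 1) ∧
    ∀ᵐ ω ∂P, ∀ v, 1 ≤ v → Tendsto (fun n : ℕ => (degree (fun m => W m ω) n v : ℝ) / n) atTop
      (𝓝 (Z (fun m => W m ω) v)) :=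
  ⟨(hasSum_Z hT).mono fun _ h => h.2, (hasSum_Z hT).mono fun _ h v _ => h.1 v⟩

end Pool.Agent.Results.MP_29c4b2_pr.TotalHubMass
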